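import Pool.Agent.H95.CMC.Targets

/-!
# Row F_RHO of the board cm4_modules: the values of a character on the lines
-/

set_option autoImplicit false

open MeasureTheory Set Filter NumberField
open scoped Real nonZeroDivisors

namespace Pool.Agent.H38.CMC

open Pool.Agent.H65.CM4 Pool.Agent.H65.CMC Pool.Agent.H95.CMC

section Alg

variable {R : Type} [CommRing R]

theorem rho_inv [IsDomain R] (F : Ideal R) (l : R) (hl : Ideal.span {l} ⊔ F = ⊤) :
    ∃ c : R, c ≠ 0 ∧ c * l - 1 ∈ F := by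
  by_cases hT : F = ⊤
  · exact ⟨1, one_ne_zero, by rw [hT]; exact Submodule.mem_top⟩
  · have h1 : (1 : R) ∈ Ideal.span {l} ⊔ F := by
      rw [hl]
      exact Submodule.mem_top
    obtain ⟨a, ha, z, hz, haz⟩ := Submodule.mem_sup.1 h1
    obtain ⟨c, hc⟩ := Ideal.mem_span_singleton'.1 ha
    refine ⟨c, ?_, ?_⟩
    · intro h0
      apply hT
      rw [Ideal.eq_top_iff_one, ← haz, ← hc, h0, zero_mul, zero_add]
      exact hz
    · have h2 : c * l - 1 = -z := by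
        rw [hc]
        linear_combination haz
      rw [h2]
      exact F.neg_mem hz

theorem rho_cop (F : Ideal R) (l c : R) (hc : c * l - 1 ∈ F) : Ideal.span {c} ⊔ F = ⊤ := by
  rw [Ideal.eq_top_iff_one]
  have h2 : (1 : R) = c * l + -(c * l - 1) := by ring
  rw [h2]
  exact Submodule.add_mem_sup (Ideal.mem_span_singleton'.2 ⟨l, mul_comm _ _⟩) (F.neg_mem hc)

theorem rho_cop2 (F : Ideal R) (c u : R) (hc : Ideal.span {c} ⊔ F = ⊤)
    (hu : Ideal.span {u} ⊔ F = ⊤) : Ideal.span {c * u} ⊔ F = ⊤ := by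
  rw [← Ideal.span_singleton_mul_span_singleton]
  have h1 : IsCoprime (Ideal.span {c}) F := Ideal.isCoprime_iff_sup_eq.2 hc
  have h2 : IsCoprime (Ideal.span {u}) F := Ideal.isCoprime_iff_sup_eq.2 hu
  exact Ideal.isCoprime_iff_sup_eq.1 (h1.mul_left h2)

theorem rho_mem (F : Ideal R) (l l' c n : R) (hc : c * l - 1 ∈ F) (hn : l' - n * l ∈ F) :
    c * l' - n ∈ F := by
  have h3 : c * l' - n = c * (l' - n * l) + n * (c * l - 1) := by ring
  rw [h3]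
  exact F.add_mem (F.mul_mem_left _ hn) (F.mul_mem_left _ hc)

end Alg

theorem rho_fin {a b c a' b' c' : ℂ} (h1 : c * a = c' * a') (h2 : c * b = c' * b') (hc : c ≠ 0)
    (ha' : a' ≠ 0) (hb' : b' ≠ 0) : b / b' = a / a' := by
  rw [div_eq_div_iff hb' ha']
  apply mul_left_cancel₀ hc
  linear_combination a' * h2 - b' * h1

section

variable {k K : Type} [Field k] [NumberField k] [Field K] [NumberField K]

/-- the infinity type is multiplicative -/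
theorem rho_mul (Φ : Pl k → K →+* ℂ) (m : Pl k → ℤ) (x y : K) :
    (∏ v : Pl k, (Φ v (x * y) / (starRingEnd ℂ) (Φ v (x * y))) ^ (m v)) =
    (∏ v : Pl k, (Φ v x / (starRingEnd ℂ) (Φ v x)) ^ (m v)) *
    ∏ v : Pl k, (Φ v y / (starRingEnd ℂ) (Φ v y)) ^ (m v) := by
  rw [← Finset.prod_mul_distrib]
  refine Finset.prod_congr rfl fun v _ => ?_
  rw [← mul_zpow, map_mul, map_mul, mul_div_mul_comm]

/-- the infinity type has the absolute value `1` -/
theorem rho_norm (Φ : Pl k → K →+* ℂ) (m : Pl k → ℤ) (x : K) (hx : x ≠ 0) :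
    ‖∏ v : Pl k, (Φ v x / (starRingEnd ℂ) (Φ v x)) ^ (m v)‖ = 1 := by
  rw [norm_prod]
  refine Finset.prod_eq_one fun v _ => ?_
  have h0 : Φ v x ≠ 0 := (map_ne_zero (Φ v)).2 hx
  have h1 : ‖Φ v x‖ ≠ 0 := norm_ne_zero_iff.2 h0
  rw [norm_zpow, norm_div, Complex.norm_conj, div_self h1, one_zpow]

end

section

variable {k K : Type} [Field k] [NumberField k] [IsTotallyReal k] [Field K] [NumberField K]
  [Algebra k K]

theorem rho_tm (Φ : Pl k → K →+* ℂ) (m : Pl k → ℤ) (x y : K) :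
    ty Φ m (x * y) = ty Φ m x * ty Φ m y := rho_mul Φ m x y

theorem rho_tn (Φ : Pl k → K →+* ℂ) (m : Pl k → ℤ) (x : K) (hx : x ≠ 0) :
    ‖ty Φ m x‖ = 1 := rho_norm Φ m x hx

theorem rho_t0 (Φ : Pl k → K →+* ℂ) (m : Pl k → ℤ) (u : 𝓞 K) (hu : u ≠ 0) :
    ty Φ m (u : K) ≠ 0 := by
  intro h0
  have h5 := rho_tn Φ m (u : K) (NumberField.RingOfIntegers.coe_ne_zero_iff.2 hu)
  rw [h0, norm_zero] at h5
  exact zero_ne_one h5

/-- the value does not depend on the generator of the line -/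
theorem rho_indep {Φ : Pl k → K →+* ℂ} {f : Ideal (𝓞 k)} {m : Pl k → ℤ} {ψ : Ideal (𝓞 K) → ℂ}
    (hψ : IsHk Φ f m ψ) {I : Ideal (𝓞 K)} {l l' : 𝓞 K} (hl : PrTo f (Ideal.span {l}))
    (hl' : PrTo f (Ideal.span {l'})) (n : 𝓞 k)
    (hn : l' - algebraMap (𝓞 k) (𝓞 K) n * l ∈ f.map (algebraMap (𝓞 k) (𝓞 K)) * I) :
    ψ (Ideal.span {l'}) / ty Φ m (l' : K) = ψ (Ideal.span {l}) / ty Φ m (l : K) := by
  have hn' := Ideal.mul_le_left (I := f.map (algebraMap (𝓞 k) (𝓞 K))) (J := I) hn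
  have hl0 : l ≠ 0 := fun h0 => hl.1 (Ideal.span_singleton_eq_bot.2 h0)
  have hl0' : l' ≠ 0 := fun h0 => hl'.1 (Ideal.span_singleton_eq_bot.2 h0)
  obtain ⟨c, hc0, hc⟩ := rho_inv (f.map (algebraMap (𝓞 k) (𝓞 K))) l hl.2
  have hcF := rho_cop _ _ _ hc
  have hne : ∀ u : 𝓞 K, u ≠ 0 → Ideal.span {u} ≠ ⊥ := fun u hu h0 =>
    hu (Ideal.span_singleton_eq_bot.1 h0)
  have e1 := hψ.pri (c * l) 1 ⟨hne _ (mul_ne_zero hc0 hl0), rho_cop2 _ _ _ hcF hl.2⟩
    (by rw [map_one]; exact hc)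
  have e2 := hψ.pri (c * l') n ⟨hne _ (mul_ne_zero hc0 hl0'), rho_cop2 _ _ _ hcF hl'.2⟩
    (rho_mem _ _ _ _ _ hc hn')
  have c1 : ((c * l : 𝓞 K) : K) = (c : K) * (l : K) := rfl
  have c2 : ((c * l' : 𝓞 K) : K) = (c : K) * (l' : K) := rfl
  rw [← Ideal.span_singleton_mul_span_singleton, hψ.mul, c1, rho_tm] at e1
  rw [← Ideal.span_singleton_mul_span_singleton, hψ.mul, c2, rho_tm] at e2
  have hψc : ψ (Ideal.span {c}) ≠ 0 := by
    have h4 := hψ.nrm (Ideal.span {c}) ⟨hne _ hc0, hcF⟩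
    intro h0
    rw [h0, norm_zero] at h4
    exact zero_ne_one h4
  exact rho_fin e1 e2 hψc (rho_t0 Φ m l hl0) (rho_t0 Φ m l' hl0')

end

theorem pf_RHO (hLNB : T_LNB) : T_RHO := by
  intro k K _ _ _ _ _ _ _ _ Φ f m ψ I hE hψ hI
  have h3 : ∀ l ∈ I, PrTo f (Ideal.span {l}) →
      rh Φ m ψ f I (ln f I l) = ψ (Ideal.span {l}) / ty Φ m (l : K) := by
    intro l hlI hl
    have hex : ∃ l' : 𝓞 K, l' ∈ I ∧ PrTo f (Ideal.span {l'}) ∧ ln f I l = ln f I l' :=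
      ⟨l, hlI, hl, rfl⟩
    unfold rh
    rw [dif_pos hex]
    have hmem : hex.choose ∈ ln f I hex.choose := ⟨1, by simp⟩
    have hmem2 : hex.choose ∈ ln f I l := hex.choose_spec.2.2.ge hmem
    obtain ⟨n, hn⟩ := hmem2
    exact rho_indep hψ hl hex.choose_spec.2.1 n hn
  refine ⟨fun x hx => rho_tn Φ m x hx, fun x y => rho_tm Φ m x y, h3, ?_⟩
  intro Λ hΛ
  obtain ⟨l, hlI, hl, rfl⟩ := ((hLNB k K f I hψ.fne hI).1 Λ).1 hΛ
  have hl0 : l ≠ 0 := fun h0 => hl.1 (Ideal.span_singleton_eq_bot.2 h0)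
  rw [h3 l hlI hl, norm_div, hψ.nrm _ hl, rho_tn Φ m (l : K)
    (NumberField.RingOfIntegers.coe_ne_zero_iff.2 hl0), div_one]

end Pool.Agent.H38.CMC
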