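import Pool.Agent.H95.CMC.Targets
import Pool.Agent.H72.CM4.CVWI

/-!
# Row F_VWL of the board cm4_modules: two vectors of a lattice, of bounded index

Adapted from `Pool.Agent.H72.CM4.CVWI`.
-/

set_option autoImplicit false

open MeasureTheory Set Filter NumberField
open scoped Real nonZeroDivisors

namespace Pool.Agent.H38.CMC

open Pool.Agent.H65.CM4 Pool.Agent.H65.CMC Pool.Agent.H95.CMC
open Pool.Agent.H95.CM (lin lin_add lin_smul T_HUR)
open Pool.Agent.H72.CM4 (min_elt exists_functional norm_lt_of_mul natAbs_lt)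

theorem vwl_v (hMKL : T_MKL) (k K : Type) [Field k] [NumberField k] [Field K] [NumberField K]
    [Algebra k K] (Λ : Sl k K) (hΛ : ixs Λ ≠ 0) :
    ∃ v ∈ Λ, v ≠ 0 ∧ (∀ x ∈ Λ, x ≠ 0 → (Algebra.norm ℤ v).natAbs ≤ (Algebra.norm ℤ x).natAbs) ∧
      |((Algebra.norm ℚ (v : K) : ℚ) : ℝ)| ≤
        (4 / π) ^ (Module.finrank ℚ K) * (Real.sqrt |(discr K : ℝ)| * ixs Λ) := by
  obtain ⟨a', ha', ha'0, hab⟩ := hMKL K Λ.toAddSubgroup hΛ
  obtain ⟨v, ⟨hv, hv0⟩, hmin⟩ := min_elt {x : 𝓞 K | x ∈ Λ ∧ x ≠ 0} ⟨a', ha', ha'0⟩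
    (fun x => (Algebra.norm ℤ x).natAbs)
  refine ⟨v, hv, hv0, fun x hx hx0 => hmin x ⟨hx, hx0⟩, ?_⟩
  have h1 : (Algebra.norm ℤ v).natAbs ≤ (Algebra.norm ℤ a').natAbs := hmin a' ⟨ha', ha'0⟩
  have h2 : |(Algebra.norm ℚ (v : K) : ℚ)| ≤ |(Algebra.norm ℚ ((a' : 𝓞 K) : K) : ℚ)| := by
    rw [← Algebra.coe_norm_int, ← Algebra.coe_norm_int, ← Int.cast_abs, ← Int.cast_abs,
      Int.cast_le]
    have h3 : (((Algebra.norm ℤ v).natAbs : ℕ) : ℤ) ≤ ((Algebra.norm ℤ a').natAbs : ℕ) := by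
      exact_mod_cast h1
    rwa [Int.natCast_natAbs, Int.natCast_natAbs] at h3
  have h4 : |((Algebra.norm ℚ (v : K) : ℚ) : ℝ)| ≤
      |((Algebra.norm ℚ ((a' : 𝓞 K) : K) : ℚ) : ℝ)| := by
    exact_mod_cast h2
  exact h4.trans hab

/-- natural multiples -/
theorem vwl_nat {k K : Type} [Field k] [NumberField k] [Field K] [NumberField K]
    [Algebra k K] (Λ : Sl k K) (t : ℕ) {x : 𝓞 K} (hx : x ∈ Λ) : (t : 𝓞 K) * x ∈ Λ := by
  rw [← nsmul_eq_mul]
  exact nsmul_mem hx t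

/-- multiples by integers of `k` -/
theorem vwl_alg {k K : Type} [Field k] [NumberField k] [Field K] [NumberField K]
    [Algebra k K] (Λ : Sl k K) (ω : 𝓞 k) {x : 𝓞 K} (hx : x ∈ Λ) :
    algebraMap (𝓞 k) (𝓞 K) ω * x ∈ Λ := by
  rw [← Algebra.smul_def]
  exact Λ.smul_mem ω hx

theorem pf_VWL (hHUR : T_HUR) (hMKL : T_MKL) : T_VWL := by
  intro k _ _ _
  obtain ⟨b₀, hb₀, hb⟩ := hHUR k
  refine ⟨b₀ ^ 2, (4 / π) ^ (2 * dg k), by positivity, ?_⟩
  intro K _ _ _ _ _ Λ hΛ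
  have h2 : Module.finrank k K = 2 := Algebra.IsQuadraticExtension.finrank_eq_two k K
  obtain ⟨v, hvI, hv0, hvmin, hvn⟩ := vwl_v hMKL k K Λ hΛ
  have hvK : (v : K) ≠ 0 := by
    intro h0
    exact hv0 (RingOfIntegers.coe_eq_zero_iff.mp h0)
  obtain ⟨L, hLv, hL0, hLint, hLker⟩ := exists_functional k K h2 (v : K) hvK
  choose l hl using hLint
  -- an element of the lattice outside the kernel
  have hne : ({x : 𝓞 K | x ∈ Λ ∧ L (x : K) ≠ 0} : Set (𝓞 K)).Nonempty := by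
    obtain ⟨z, hz⟩ : ∃ z, L z ≠ 0 := by
      by_contra h
      push Not at h
      exact hL0 (LinearMap.ext h)
    obtain ⟨m, hm0, hm⟩ := exists_integral_multiples ℤ ℚ ({z} : Finset K)
    have hm1 := hm z (Finset.mem_singleton_self z)
    set zz : 𝓞 K := ⟨m • z, hm1⟩ with hzz
    refine ⟨(ixs Λ : 𝓞 K) * zz, ?_, ?_⟩
    · rw [← nsmul_eq_mul]
      exact AddSubgroup.nsmul_index_mem Λ.toAddSubgroup zz
    · have e : (((ixs Λ : 𝓞 K) * zz : 𝓞 K) : K) =
          algebraMap k K ((ixs Λ : k) * (m : k)) * z := by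
        have e1 : (((ixs Λ : 𝓞 K) * zz : 𝓞 K) : K) =
            algebraMap (𝓞 K) K (ixs Λ : 𝓞 K) * (m • z) := rfl
        rw [e1, map_natCast, map_mul, map_natCast, map_intCast, zsmul_eq_mul, mul_assoc]
      rw [e, ← Algebra.smul_def, map_smul, smul_eq_mul]
      refine mul_ne_zero (mul_ne_zero ?_ ?_) hz
      · exact_mod_cast hΛ
      · exact_mod_cast hm0
  obtain ⟨w, ⟨hwI, hLw⟩, hwmin⟩ := min_elt _ hne (fun x => (Algebra.norm ℤ (l x)).natAbs)
  refine ⟨v, hvI, w, hwI, ?_, ?_, ?_⟩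
  · intro x y hxy
    have h3 := congrArg L hxy
    rw [← Algebra.smul_def, ← Algebra.smul_def, map_add, map_smul, map_smul, hLv, smul_zero,
      zero_add, map_zero, smul_eq_mul] at h3
    have hy : y = 0 := (mul_eq_zero.mp h3).resolve_right hLw
    rw [hy, map_zero, zero_mul, add_zero] at hxy
    refine ⟨?_, hy⟩
    have h4 := (mul_eq_zero.mp hxy).resolve_right hvK
    exact (map_eq_zero _).mp h4
  · intro x hx
    obtain ⟨t, ht, ω, hω⟩ := hb (L (x : K) / L (w : K))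
    -- `y` is a multiple of `v`
    set y : 𝓞 K := (t : 𝓞 K) * x - algebraMap (𝓞 k) (𝓞 K) ω * w with hy
    have hyI : y ∈ Λ := Λ.sub_mem (vwl_nat Λ t hx) (vwl_alg Λ ω hwI)
    have hyK : (y : K) = algebraMap k K (t : k) * (x : K) -
        algebraMap k K (ω : k) * (w : K) := by
      have e1 : (y : K) = algebraMap (𝓞 K) K (t : 𝓞 K) * (x : K) -
        algebraMap k K (ω : k) * (w : K) := rfl
      rw [e1, map_natCast, map_natCast]
    have hLy : L (y : K) = ((t : k) * (L (x : K) / L (w : K)) - (ω : k)) * L (w : K) := by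
      rw [hyK, ← Algebra.smul_def, ← Algebra.smul_def, map_sub, map_smul, map_smul, smul_eq_mul,
        smul_eq_mul, sub_mul, mul_assoc, div_mul_cancel₀ _ hLw]
    have hLy0 : L (y : K) = 0 := by
      by_contra hne0
      have h3 := hwmin y ⟨hyI, hne0⟩
      have h4 : (Algebra.norm ℤ (l y)).natAbs < (Algebra.norm ℤ (l w)).natAbs := by
        refine natAbs_lt _ _ ?_
        rw [hl, hl, hLy, map_mul, abs_mul]
        have h5 : 0 < |Algebra.norm ℚ (L (w : K))| :=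
          abs_pos.mpr (Algebra.norm_ne_zero_iff.mpr hLw)
        nlinarith
      exact absurd h3 (not_le.mpr h4)
    obtain ⟨κ, hκ⟩ := hLker _ hLy0
    obtain ⟨t', ht', ω', hω'⟩ := hb κ
    set z : 𝓞 K := (t' : 𝓞 K) * y - algebraMap (𝓞 k) (𝓞 K) ω' * v with hz
    have hzI : z ∈ Λ := Λ.sub_mem (vwl_nat Λ t' hyI) (vwl_alg Λ ω' hvI)
    have hzK : (z : K) = algebraMap k K ((t' : k) * κ - (ω' : k)) * (v : K) := by
      have e1 : (z : K) = algebraMap (𝓞 K) K (t' : 𝓞 K) * (y : K) -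
        algebraMap k K (ω' : k) * (v : K) := rfl
      rw [e1, map_natCast, hκ, map_sub, map_mul, map_natCast]
      ring
    have hz0 : z = 0 := by
      by_contra hne0
      have h3 := hvmin z hzI hne0
      have h4 : (Algebra.norm ℤ z).natAbs < (Algebra.norm ℤ v).natAbs := by
        refine natAbs_lt _ _ ?_
        rw [hzK]
        exact norm_lt_of_mul h2 _ _ hvK hω'
      exact absurd h3 (not_le.mpr h4)
    obtain ⟨s, hs⟩ := ht
    obtain ⟨s', hs'⟩ := ht'
    refine ⟨((s : 𝓞 k) * s' * ω', (s : 𝓞 k) * s' * t' * ω), ?_⟩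
    have h6 : (t' : K) * (y : K) = algebraMap k K (ω' : k) * (v : K) := by
      have e1 : (z : K) = algebraMap (𝓞 K) K (t' : 𝓞 K) * (y : K) -
        algebraMap k K (ω' : k) * (v : K) := rfl
      have e2 : (z : K) = 0 := by rw [hz0]; exact map_zero (algebraMap (𝓞 K) K)
      rw [e2, map_natCast] at e1
      exact (sub_eq_zero.mp e1.symm)
    have h7 : (y : K) = (t : K) * (x : K) - algebraMap k K (ω : k) * (w : K) := by
      rw [hyK, map_natCast]
    have e3 : ((((s : 𝓞 k) * s' * ω' : 𝓞 k)) : k) = (s : k) * s' * (ω' : k) := by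
      have e1 : ((((s : 𝓞 k) * s' * ω' : 𝓞 k)) : k) =
        algebraMap (𝓞 k) k ((s : 𝓞 k) * s' * ω') := rfl
      rw [e1, map_mul, map_mul, map_natCast, map_natCast]
    have e4 : ((((s : 𝓞 k) * s' * t' * ω : 𝓞 k)) : k) = (s : k) * s' * t' * (ω : k) := by
      have e1 : ((((s : 𝓞 k) * s' * t' * ω : 𝓞 k)) : k) =
        algebraMap (𝓞 k) k ((s : 𝓞 k) * s' * t' * ω) := rfl
      rw [e1, map_mul, map_mul, map_mul, map_natCast, map_natCast, map_natCast]
    unfold lin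
    simp only
    rw [e3, e4]
    have h8 : ((b₀ ^ 2 : ℕ) : K) = (t : K) * s * (t' * s') := by
      have h9 : b₀ ^ 2 = t * s * (t' * s') := by rw [← hs, ← hs', sq]
      rw [h9]
      push_cast
      rfl
    rw [h8]
    simp only [map_mul, map_natCast]
    have h12 : (t : K) * s * (t' * s') * (x : K) =
        s * s' * (t' * ((t : K) * (x : K) - algebraMap k K (ω : k) * (w : K))) +
        s * s' * t' * algebraMap k K (ω : k) * (w : K) := by ring
    rw [h12, ← h7, h6]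
    ring
  · have h3 : Module.finrank ℚ K = 2 * dg k := by
      unfold dg
      rw [← Module.finrank_mul_finrank ℚ k K, h2, mul_comm]
    rw [h3] at hvn
    exact hvn

end Pool.Agent.H38.CMC
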